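import Mathlib
import Pool.Agent.H759R2.Kad.Props3
import Pool.Agent.H777R2.Kad.Dix
import Pool.Agent.H294R2.Kad2.Dix2

/-! Kadison part 3, task 25: similarity on scalar matrices. -/

open scoped ComplexOrder InnerProductSpace ComplexConjugate
open Finset

noncomputable section

namespace H759R2.Kad

universe u v

namespace A25

section unitarize

variable {H : Type v} [NormedAddCommGroup H] [InnerProductSpace ℂ H] [CompleteSpace H]

theorem inner_star_mul (A : H →L[ℂ] H) (ξ : H) :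
    ⟪(star A * A) ξ, ξ⟫_ℂ = ((‖A ξ‖ ^ 2 : ℝ) : ℂ) := by
  rw [ContinuousLinearMap.star_eq_adjoint]
  change ⟪(ContinuousLinearMap.adjoint A) (A ξ), ξ⟫_ℂ = _
  rw [ContinuousLinearMap.adjoint_inner_left, inner_self_eq_norm_sq_to_K]
  simp

/-- Finite groups of invertible operators with bounded inverses are similar to unitary ones. -/
theorem unitarize {G : Type*} [Fintype G] [Nonempty G] (U : G → (H →L[ℂ] H)) {c : ℝ} (hc : 0 ≤ c)
    (h1 : ∀ g, ‖U g‖ ≤ c)
    (h2 : ∀ g, ∃ V : H →L[ℂ] H, V * U g = 1 ∧ U g * V = 1 ∧ ‖V‖ ≤ c)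
    (h3 : ∀ h, ∃ φ : G ≃ G, ∀ g, U (φ g) = U g * U h) :
    ∃ S S' : H →L[ℂ] H, S * S' = 1 ∧ S' * S = 1 ∧ ‖S‖ ≤ c ∧ ‖S'‖ ≤ c ∧
      ∀ (h : G) (V : H →L[ℂ] H), U h * V = 1 → star (S * U h * S') = S * V * S' := by
  rcases subsingleton_or_nontrivial H with hH | hH
  · refine ⟨0, 0, Subsingleton.elim _ _, Subsingleton.elim _ _, by simpa using hc,
      by simpa using hc, fun _ _ _ => Subsingleton.elim _ _⟩
  have hcpos : 0 < c := by
    obtain ⟨g⟩ := (inferInstance : Nonempty G)
    obtain ⟨V, hV1, -, hV3⟩ := h2 g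
    rcases hc.eq_or_lt with h0 | h0
    · exfalso
      rw [← h0] at hV3
      have : V = 0 := norm_le_zero_iff.mp hV3
      rw [this, zero_mul] at hV1
      exact zero_ne_one hV1
    · exact h0
  have hcard : (0 : ℝ) < Fintype.card G := by exact_mod_cast Fintype.card_pos
  set T : H →L[ℂ] H := ((Fintype.card G : ℝ)⁻¹ : ℝ) • ∑ g, star (U g) * U g with hT
  have hTn : 0 ≤ T := by
    apply smul_nonneg (by positivity)
    exact Finset.sum_nonneg fun g _ => star_mul_self_nonneg _
  have hTin : ∀ ξ, ⟪T ξ, ξ⟫_ℂ = (((Fintype.card G : ℝ)⁻¹ * ∑ g, ‖U g ξ‖ ^ 2 : ℝ) : ℂ) := by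
    intro ξ
    have e1 : T ξ = ((Fintype.card G : ℝ)⁻¹ : ℝ) • ∑ g, (star (U g) * U g) ξ := by
      rw [hT]
      simp
    have e2 : ∀ (r : ℝ) (x : H), r • x = ((r : ℝ) : ℂ) • x := fun r x => (Complex.coe_smul r x).symm
    rw [e1, e2, inner_smul_left, Complex.conj_ofReal, sum_inner]
    simp only [inner_star_mul]
    push_cast
    rfl
  have hlow : ∀ ξ, ‖ξ‖ ^ 2 ≤ c ^ 2 * ((Fintype.card G : ℝ)⁻¹ * ∑ g, ‖U g ξ‖ ^ 2) := by
    intro ξ
    have hg : ∀ g ∈ (univ : Finset G), ‖ξ‖ ^ 2 ≤ c ^ 2 * ‖U g ξ‖ ^ 2 := by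
      intro g _
      obtain ⟨V, hV1, -, hV3⟩ := h2 g
      have e : ξ = V (U g ξ) := by
        have : (V * U g) ξ = ξ := by rw [hV1]; rfl
        exact this.symm
      have : ‖ξ‖ ≤ c * ‖U g ξ‖ := by
        calc ‖ξ‖ = ‖V (U g ξ)‖ := by rw [← e]
          _ ≤ ‖V‖ * ‖U g ξ‖ := V.le_opNorm _
          _ ≤ c * ‖U g ξ‖ := by gcongr
      calc ‖ξ‖ ^ 2 ≤ (c * ‖U g ξ‖) ^ 2 := pow_le_pow_left₀ (norm_nonneg _) this 2
        _ = c ^ 2 * ‖U g ξ‖ ^ 2 := by ring
    have := Finset.sum_le_sum hg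
    rw [Finset.sum_const, Finset.card_univ, nsmul_eq_mul, ← Finset.mul_sum] at this
    calc ‖ξ‖ ^ 2 = (Fintype.card G : ℝ)⁻¹ * ((Fintype.card G : ℝ) * ‖ξ‖ ^ 2) := by
          field_simp
      _ ≤ (Fintype.card G : ℝ)⁻¹ * (c ^ 2 * ∑ g, ‖U g ξ‖ ^ 2) := by gcongr
      _ = _ := by ring
  have hup : ∀ ξ, (Fintype.card G : ℝ)⁻¹ * ∑ g, ‖U g ξ‖ ^ 2 ≤ c ^ 2 * ‖ξ‖ ^ 2 := by
    intro ξ
    have hg : ∀ g ∈ (univ : Finset G), ‖U g ξ‖ ^ 2 ≤ c ^ 2 * ‖ξ‖ ^ 2 := by
      intro g _
      have : ‖U g ξ‖ ≤ c * ‖ξ‖ := ((U g).le_opNorm ξ).trans (by gcongr; exact h1 g)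
      calc ‖U g ξ‖ ^ 2 ≤ (c * ‖ξ‖) ^ 2 := pow_le_pow_left₀ (norm_nonneg _) this 2
        _ = c ^ 2 * ‖ξ‖ ^ 2 := by ring
    have := Finset.sum_le_sum hg
    rw [Finset.sum_const, Finset.card_univ, nsmul_eq_mul] at this
    calc (Fintype.card G : ℝ)⁻¹ * ∑ g, ‖U g ξ‖ ^ 2
        ≤ (Fintype.card G : ℝ)⁻¹ * ((Fintype.card G : ℝ) * (c ^ 2 * ‖ξ‖ ^ 2)) := by gcongr
      _ = _ := by field_simp
  have hTu : IsUnit T := by
    have hcc : (0 : NNReal) < ⟨(c ^ 2)⁻¹, by positivity⟩ := by
      have : (0 : ℝ) < (c ^ 2)⁻¹ := by positivity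
      exact this
    refine ContinuousLinearMap.isUnit_of_forall_le_norm_inner_map T hcc fun ξ => ?_
    rw [hTin]
    rw [Complex.norm_real, Real.norm_eq_abs]
    refine le_trans ?_ (le_abs_self _)
    change ‖ξ‖ ^ 2 * (c ^ 2)⁻¹ ≤ _
    rw [← div_eq_mul_inv, div_le_iff₀ (by positivity)]
    linarith [hlow ξ]
  set S := CFC.sqrt T with hS
  have hSS : S * S = T := CFC.sqrt_mul_sqrt_self T hTn
  have hSsa : star S = S := (IsSelfAdjoint.of_nonneg (CFC.sqrt_nonneg T)).star_eq
  have hSu : IsUnit S := by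
    have : IsUnit (S * S) := by rw [hSS]; exact hTu
    exact ((Commute.refl S).isUnit_mul_iff.mp this).1
  obtain ⟨w, hw⟩ := hSu
  set S' : H →L[ℂ] H := ((w⁻¹ : (H →L[ℂ] H)ˣ) : H →L[ℂ] H) with hS'
  have i1 : S * S' = 1 := by rw [← hw, hS']; exact w.mul_inv
  have i2 : S' * S = 1 := by rw [← hw, hS']; exact w.inv_mul
  have hSn : ∀ ξ, ‖S ξ‖ ^ 2 = (Fintype.card G : ℝ)⁻¹ * ∑ g, ‖U g ξ‖ ^ 2 := by
    intro ξ
    have e1 := inner_star_mul S ξ
    rw [hSsa, hSS, hTin] at e1
    exact_mod_cast e1.symm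
  have hS's : star S' = S' := by
    have e1 : star S' * S = 1 := by
      have := congrArg star i1
      rw [star_mul, hSsa, star_one] at this
      exact this
    calc star S' = star S' * (S * S') := by rw [i1, mul_one]
      _ = S' := by rw [← mul_assoc, e1, one_mul]
  have hTinv : ∀ h, star (U h) * T * U h = T := by
    intro h
    obtain ⟨φ, hφ⟩ := h3 h
    rw [hT, mul_smul_comm, smul_mul_assoc, Finset.mul_sum, Finset.sum_mul]
    congr 1
    rw [← Equiv.sum_comp φ (fun g => star (U g) * U g)]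
    refine Finset.sum_congr rfl fun g _ => ?_
    rw [hφ, star_mul]
    simp only [mul_assoc]
  refine ⟨S, S', i1, i2, ?_, ?_, ?_⟩
  · refine ContinuousLinearMap.opNorm_le_bound _ hc fun ξ => ?_
    refine le_of_sq_le_sq ?_ (by positivity)
    rw [hSn, mul_pow]
    exact hup ξ
  · refine ContinuousLinearMap.opNorm_le_bound _ hc fun η => ?_
    refine le_of_sq_le_sq ?_ (by positivity)
    have e : S (S' η) = η := by
      have : (S * S') η = η := by rw [i1]; rfl
      exact this
    have := hlow (S' η)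
    rw [← hSn, e] at this
    rw [mul_pow]
    exact this
  · intro h V hV
    have e1 : star (U h) * (S * S) = S * S * V := by
      have := hTinv h
      rw [← hSS] at this
      calc star (U h) * (S * S) = star (U h) * (S * S) * (U h * V) := by rw [hV, mul_one]
        _ = star (U h) * (S * S) * U h * V := by simp only [mul_assoc]
        _ = S * S * V := by rw [this]
    rw [star_mul, star_mul, hS's, hSsa]
    calc S' * (star (U h) * S) = S' * (star (U h) * (S * S)) * S' := by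
          simp only [mul_assoc, i1, mul_one]
      _ = S' * (S * S * V) * S' := by rw [e1]
      _ = (S' * S) * S * V * S' := by simp only [mul_assoc]
      _ = S * V * S' := by rw [i2, one_mul]

end unitarize

section scalar

variable {B : Type u} [CStarAlgebra B]

theorem tens_mul_tens {L : ℕ} (s t : Matrix (Fin L) (Fin L) ℂ) :
    (tens s (1 : B)) * tens t 1 = tens (s * t) 1 := by
  ext i j
  rw [CStarMatrix.mul_apply, tens_apply, Matrix.mul_apply, Finset.sum_smul]
  refine Finset.sum_congr rfl fun k _ => ?_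
  rw [tens_apply, tens_apply, smul_mul_smul_comm, one_mul]

theorem tens_one_one {L : ℕ} : (tens (1 : Matrix (Fin L) (Fin L) ℂ) (1 : B)) = 1 := by
  ext i j
  rw [tens_apply, CStarMatrix.one_apply, Matrix.one_apply]
  by_cases h : i = j <;> simp [h]

theorem tens_add' {L : ℕ} (s t : Matrix (Fin L) (Fin L) ℂ) :
    (tens (s + t) (1 : B)) = tens s 1 + tens t 1 := by
  ext i j
  rw [CStarMatrix.add_apply, tens_apply, tens_apply, tens_apply, Matrix.add_apply, add_smul]

theorem tens_smul' {L : ℕ} (a : ℂ) (s : Matrix (Fin L) (Fin L) ℂ) :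
    (tens (a • s) (1 : B)) = a • tens s 1 := by
  ext i j
  rw [CStarMatrix.smul_apply, tens_apply, tens_apply, Matrix.smul_apply, smul_assoc]

theorem spm_mul {ι : Type} [Fintype ι] [DecidableEq ι] (σ σ' : Equiv.Perm ι) (e e' : ι → ℤˣ) :
    spm σ e * spm σ' e' = spm (σ' * σ) (fun i => e i * e' (σ i)) := by
  ext i k
  rw [Matrix.mul_apply, Finset.sum_eq_single (σ i)]
  · rw [spm_apply, spm_apply, spm_apply, if_pos rfl, Equiv.Perm.mul_apply]
    split_ifs
    · push_cast; ring
    · ring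
  · intro j _ hj
    rw [spm_apply, if_neg (Ne.symm hj), zero_mul]
  · simp

/-- Right multiplication in the group of signed permutations. -/
def rmul {ι : Type} (σ' : Equiv.Perm ι) (e' : ι → ℤˣ) :
    (Equiv.Perm ι × (ι → ℤˣ)) → (Equiv.Perm ι × (ι → ℤˣ)) :=
  fun g => (σ' * g.1, fun i => g.2 i * e' (g.1 i))

theorem rmul_inj {ι : Type} (σ' : Equiv.Perm ι) (e' : ι → ℤˣ) :
    Function.Injective (rmul σ' e') := by
  rintro ⟨σ, e⟩ ⟨τ, f⟩ h
  simp only [rmul, Prod.mk.injEq, mul_right_inj] at h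
  obtain ⟨rfl, h2⟩ := h
  congr 1
  funext i
  have := congrFun h2 i
  simpa using this

end scalar

end A25

open A25

theorem prove3_sim : K_sim.{u, v} := by
  intro B _ _ _ H _ _ _ L u hu c hc hbd
  set G := Equiv.Perm (Fin L) × (Fin L → ℤˣ) with hG
  set U : G → (H →L[ℂ] H) := fun g => u (tens (spm g.1 g.2) 1) with hU
  have hone : (1 : B) ∈ unitary B := one_mem _
  have hnorm : ∀ X : CStarMatrix (Fin L) (Fin L) B, X ∈ unitary (CStarMatrix (Fin L) (Fin L) B) →
      ‖u X‖ ≤ c := by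
    intro X hX
    refine (hbd X).trans ?_
    have := mul_le_mul_of_nonneg_left (H294R2.Kad2.norm_le_one_of_unitary hX) hc
    simpa using this
  have hmem : ∀ g : G, tens (spm g.1 g.2) (1 : B) ∈ unitary (CStarMatrix (Fin L) (Fin L) B) :=
    fun g => Block.tens_unitary (spm_mem g.1 g.2) hone
  have hinv1 : ∀ g : G, u (tens (star (spm g.1 g.2)) 1) * U g = 1 := by
    intro g
    rw [hU]
    simp only
    rw [← hu.mul, tens_mul_tens, (Unitary.mem_iff.mp (spm_mem g.1 g.2)).1, tens_one_one, hu.one]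
  have hinv2 : ∀ g : G, U g * u (tens (star (spm g.1 g.2)) 1) = 1 := by
    intro g
    rw [hU]
    simp only
    rw [← hu.mul, tens_mul_tens, (Unitary.mem_iff.mp (spm_mem g.1 g.2)).2, tens_one_one, hu.one]
  obtain ⟨S, S', i1, i2, n1, n2, hstar⟩ := unitarize U hc (fun g => hnorm _ (hmem g))
    (fun g => ⟨u (tens (star (spm g.1 g.2)) 1), hinv1 g, hinv2 g, by
      apply hnorm
      have := Unitary.star_mem (hmem g)
      rwa [H294R2.Kad2.star_tens, star_one] at this⟩)
    (fun h => ⟨Equiv.ofBijective (rmul h.1 h.2)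
      ((Finite.injective_iff_bijective).mp (rmul_inj h.1 h.2)), fun g => by
        rw [hU]
        simp only
        rw [← hu.mul, tens_mul_tens, spm_mul]
        rfl⟩)
  refine ⟨S, S', i1, i2, n1, n2, ?_⟩
  have hP : ∀ g : G, star (S * u (tens (spm g.1 g.2) 1) * S') =
      S * u (tens (star (spm g.1 g.2)) 1) * S' := fun g => hstar g _ (hinv2 g)
  have hadd : ∀ s t : Matrix (Fin L) (Fin L) ℂ,
      star (S * u (tens s 1) * S') = S * u (tens (star s) 1) * S' →
      star (S * u (tens t 1) * S') = S * u (tens (star t) 1) * S' →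
      star (S * u (tens (s + t) 1) * S') = S * u (tens (star (s + t)) 1) * S' := by
    intro s t hs ht
    rw [tens_add', map_add, mul_add, add_mul, star_add, hs, ht, star_add, tens_add', map_add,
      mul_add, add_mul]
  have hsmul : ∀ (a : ℂ) (s : Matrix (Fin L) (Fin L) ℂ),
      star (S * u (tens s 1) * S') = S * u (tens (star s) 1) * S' →
      star (S * u (tens (a • s) 1) * S') = S * u (tens (star (a • s)) 1) * S' := by
    intro a s hs
    rw [tens_smul', map_smul, mul_smul_comm, smul_mul_assoc, star_smul, hs, star_smul, tens_smul',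
      map_smul, mul_smul_comm, smul_mul_assoc]
  have hsingle : ∀ i j : Fin L, Matrix.single i j (1 : ℂ) =
      (1 / 2 : ℂ) • (spm (Equiv.swap i j) (fun _ => 1) +
        (-1 : ℂ) • spm (Equiv.swap i j) (Function.update (fun _ => 1) i (-1))) := by
    intro i j
    ext a b
    rw [Matrix.smul_apply, Matrix.add_apply, Matrix.smul_apply, spm_apply, spm_apply,
      Matrix.single_apply]
    by_cases ha : a = i
    · subst ha
      by_cases hb : b = j
      · subst hb
        simp
        norm_num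
      · have hb' : ¬ (j = b) := fun h => hb h.symm
        simp [hb']
    · have ha' : ¬ (i = a) := fun h => ha h.symm
      simp only [Function.update_of_ne ha, ha', false_and, if_false, Units.val_one, Int.cast_one,
        smul_eq_mul]
      split_ifs <;> norm_num
  intro s
  rw [Matrix.matrix_eq_sum_single s]
  have hzero : star (S * u (tens (0 : Matrix (Fin L) (Fin L) ℂ) 1) * S') =
      S * u (tens (star (0 : Matrix (Fin L) (Fin L) ℂ)) 1) * S' := by
    have := hsmul 0 (spm 1 1) (hP (1, 1))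
    simpa using this
  have hsum : ∀ (κ : Type) (F : Finset κ) (f : κ → Matrix (Fin L) (Fin L) ℂ),
      (∀ k ∈ F, star (S * u (tens (f k) 1) * S') = S * u (tens (star (f k)) 1) * S') →
      star (S * u (tens (∑ k ∈ F, f k) 1) * S') = S * u (tens (star (∑ k ∈ F, f k)) 1) * S' := by
    classical
    intro κ F f
    induction F using Finset.induction_on with
    | empty => intro _; simpa using hzero
    | insert a F ha ih =>
      intro h
      rw [Finset.sum_insert ha]
      exact hadd _ _ (h a (Finset.mem_insert_self a F))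
        (ih fun k hk => h k (Finset.mem_insert_of_mem hk))
  apply hsum
  intro i _
  apply hsum
  intro j _
  have e : Matrix.single i j (s i j) = s i j • Matrix.single i j (1 : ℂ) := by
    rw [Matrix.smul_single, smul_eq_mul, mul_one]
  rw [e, hsingle]
  apply hsmul
  apply hsmul
  apply hadd
  · exact hP (Equiv.swap i j, fun _ => 1)
  · apply hsmul
    exact hP (Equiv.swap i j, Function.update (fun _ => 1) i (-1))

end H759R2.Kad
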